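import Pool.Agent.Q299.LG.Thr
import Pool.Agent.TH442.NF.HH
import Pool.Agent.TH167.SH.Conv

set_option autoImplicit false

/-!
# All classes: the moving part of a system whose standard form is big
-/

namespace Pool.Agent.Q299.LG

open MvPolynomial Pool.Agent.W609 Pool.Agent.W609.CR Pool.Agent.TH167 Pool.Agent.TH167.SH

/-- The class `(d; w)` is big: for some `μ ≥ 1` with `w i ≤ μ` for all `i`, the sum of the
multiplicities and of the Euler characteristic minus one is at least `100000 (μ + 1) ^ 2`. -/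
def BigC {n : ℕ} (d : ℕ) (w : Fin n → ℕ) : Prop :=
  ∃ μ : ℕ, 1 ≤ μ ∧ (∀ i, w i ≤ μ) ∧
    100000 * ((μ : ℤ) + 1) ^ 2 ≤ ∑ i, (w i : ℤ) + SHDefs.virtdim d w

/-- irreducible curves are transported back along quadratic transformations -/
theorem back_quad {K : Type} [Field K] [CharZero K] {s : ℕ} {a b : ℕ × (Fin s → ℕ)}
    (h : Relation.ReflTransGen Quad a b) :
    ∀ {P : Fin s → Fin 2 → K}, AlgebraicIndependent ℚ (fun ij : Fin s × Fin 2 => P ij.1 ij.2) →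
      ∃ P' : Fin s → Fin 2 → K,
        AlgebraicIndependent ℚ (fun ij : Fin s × Fin 2 => P' ij.1 ij.2) ∧
        ∀ G', Irreducible G' → G'.IsHomogeneous b.1 → (∀ j, Ord (aff (P' j)) (b.2 j) G') →
          ∃ G, Irreducible G ∧ G.IsHomogeneous a.1 ∧ ∀ j, Ord (aff (P j)) (a.2 j) G := by
  induction h using Relation.ReflTransGen.head_induction_on with
  | refl => exact fun {P} hP => ⟨P, hP, fun G' h1 h2 h3 => ⟨G', h1, h2, h3⟩⟩
  | @head a c hac _ ih =>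
    intro P hP
    obtain ⟨i, hi, p, rfl⟩ := hac
    obtain ⟨P1, hP1, hr⟩ := exists_crel hP hi
    obtain ⟨P', hP', h4⟩ := ih hP1
    refine ⟨P', hP', fun G' h1 h2 h3 => ?_⟩
    obtain ⟨G1, g1, g2, g3⟩ := h4 G' h1 h2 h3
    have q := p.cr hi
    obtain ⟨G, e1, e2, e3⟩ := hr.symm.irr g1 g2 g3 q.p01 q.p02 q.p12
    refine ⟨G, e1, ?_, fun j => ?_⟩
    · have h5 := cd_cr hi p
      unfold cd at h5
      rw [← h5]
      exact e2
    · have h5 := wcr_cr hi p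
      have h6 := e3 j
      rw [h5] at h6
      exact h6

/-- a big class is not special -/
theorem BigC.exp {K : Type} [Field K] [CharZero K] {n : ℕ} {P : Fin n → Fin 2 → K}
    (hP : AlgebraicIndependent ℚ (fun ij : Fin n × Fin 2 => P ij.1 ij.2)) {d : ℕ} {w : Fin n → ℕ}
    (h : BigC d w) :
    (Module.finrank K ↥(VS (fun j => aff (P j)) w d) : ℤ) = max 0 (chi d w) := by
  obtain ⟨μ, hμ, hw, hb⟩ := h
  rw [← Pool.Agent.TH442.NF.expDim_iff]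
  refine Pool.Agent.Y205.AV.large_exp ⟨Finset.univ, μ, (Finset.univ.image w).card,
    fun i _ => hw i, fun i hi => absurd (Finset.mem_univ i) hi, le_rfl, Or.inl ?_⟩ hP
  rw [virtdim_eq] at hb
  have h1 : chi d w = ((d + 2).choose 2 : ℤ) - ∑ i, ((w i + 1).choose 2 : ℤ) := rfl
  rw [← h1]
  have h2 : chi d w ≤ |chi d w| := le_abs_self _
  have h3 : 0 ≤ |chi d w| := abs_nonneg _
  have h4 : 0 < ((μ : ℤ) + 1) ^ 2 := by positivity
  linarith

/-- an irreducible curve in a big class -/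
theorem BigC.curve {n : ℕ} {P : Fin n → Fin 2 → ℂ}
    (hP : AlgebraicIndependent ℚ (fun ij : Fin n × Fin 2 => P ij.1 ij.2)) {d : ℕ} {w : Fin n → ℕ}
    (h : BigC d w) (h0 : 0 < chi d w) :
    ∃ G, Irreducible G ∧ G.IsHomogeneous d ∧ ∀ j, Ord (aff (P j)) (w j) G := by
  obtain ⟨μ, hμ, hw, hb⟩ := h
  rw [virtdim_eq] at hb
  obtain ⟨k, hk⟩ : ∃ k : ℕ, chi d w = k + 1 := ⟨(chi d w - 1).toNat, by omega⟩
  obtain ⟨Q, hPQ⟩ := Pool.Agent.Q299.IR.exists_Q k hP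
  have hsum : 100000 * (μ + 1) ^ 2 ≤ ∑ i, w i + k := by
    have h1 : ((100000 * (μ + 1) ^ 2 : ℕ) : ℤ) ≤ ((∑ i, w i + k : ℕ) : ℤ) := by
      push_cast
      linarith
    exact_mod_cast h1
  obtain ⟨F, h1, h2, h3, -⟩ := through hμ hw hsum hk hPQ
  exact ⟨F, h1, h2, h3⟩

/-- classes of large degree are big -/
theorem BigC.of_deg {n d μ : ℕ} {w : Fin n → ℕ} (hμ : 1 ≤ μ) (hw : ∀ i, w i ≤ μ)
    (hd : 100489 * (μ + 1) ^ 3 ≤ d ^ 2) (h0 : 0 ≤ SHDefs.virtdim d w) : BigC d w := by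
  refine ⟨μ, hμ, hw, ?_⟩
  rw [virtdim_eq] at h0 ⊢
  have h1 := two_chi' d w
  rw [c2_eq] at h1
  have h2 := sp_le (μ := (μ : ℤ)) (u := w) fun i => by exact_mod_cast hw i
  have h3 := s1_nonneg w
  have h4 : (100489 : ℤ) * (μ + 1) ^ 3 ≤ d ^ 2 := by exact_mod_cast hd
  have h5 : (1 : ℤ) ≤ μ := by exact_mod_cast hμ
  have h6 : (0 : ℤ) ≤ d := Nat.cast_nonneg _
  obtain ⟨s, hs⟩ : ∃ s, s = s1 fun i => (w i : ℤ) := ⟨_, rfl⟩
  have h7 : ∑ i, (w i : ℤ) = s := by rw [hs]; rfl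
  rw [h7]
  rw [← hs] at h1 h2 h3
  obtain ⟨x, hx⟩ : ∃ x, x = chi d w := ⟨_, rfl⟩
  rw [← hx] at h0 h1 ⊢
  by_contra hcon
  push Not at hcon
  have h8 : (d : ℤ) ^ 2 ≤ (μ + 1) * (x + s) := by nlinarith
  have h9 : ((μ : ℤ) + 1) * (x + s) ≤ (μ + 1) * (100000 * ((μ : ℤ) + 1) ^ 2) :=
    mul_le_mul_of_nonneg_left (by linarith) (by linarith)
  have h10 : 0 < ((μ : ℤ) + 1) ^ 3 := by positivity
  nlinarith

/-- **all classes** -/
theorem all_classes {n : ℕ} (hn : 4 ≤ n) {P : Fin n → Fin 2 → ℂ}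
    (hP : AlgebraicIndependent ℚ (fun ij : Fin n × Fin 2 => P ij.1 ij.2)) {d : ℕ} {w : Fin n → ℕ}
    (hpos : 0 < Module.finrank ℂ ↥(VS (fun j => aff (P j)) w d)) :
    ∃ (d2 : ℕ) (w2 : Fin n → ℕ) (k : ℕ) (G : Fin k → MvPolynomial (Fin 3) ℂ) (e : Fin k → ℕ)
      (u : Fin k → Fin n → ℕ) (N : Fin k → ℕ) (d1 : ℕ) (w1 : Fin n → ℕ),
      Dcp P d w d2 w2 G e u N ∧
      Module.finrank ℂ ↥(VS (fun j => aff (P j)) w2 d2) =
        Module.finrank ℂ ↥(VS (fun j => aff (P j)) w d) ∧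
      Relation.ReflTransGen Quad (d2, w2) (d1, w1) ∧ Reduced d1 w1 ∧
      (BigC d1 w1 → (Module.finrank ℂ ↥(VS (fun j => aff (P j)) w d) : ℤ) = chi d1 w1 ∧
        (∃ C, Irreducible C ∧ C.IsHomogeneous d2 ∧ ∀ j, Ord (aff (P j)) (w2 j) C) ∧
        ((∀ a, N a = 1) → ¬ SH.Special P d w)) := by
  obtain ⟨r, rfl⟩ : ∃ r, n = r + 4 := ⟨n - 4, by omega⟩
  obtain ⟨M, hM⟩ : ∃ M, ∀ j, w j ≤ M := ⟨∑ j, w j, fun j =>
    Finset.single_le_sum (fun _ _ => Nat.zero_le _) (Finset.mem_univ j)⟩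
  have hw : Few M d w := by
    left
    rw [Finset.filter_false_of_mem fun j _ => not_lt.2 (hM j)]
    simp
  obtain ⟨d2, w2, k, G, e, u, N, hD, hdim, P1, d1, w1, hP1, hchain, -, hred, hdim1⟩ :=
    main d P hP w hw hpos
  have hDcp : Dcp P d w d2 w2 G e u N := ⟨hD.exc, hD.pos, hD.orth, hD.deg, hD.mul, hD.zero⟩
  refine ⟨d2, w2, k, G, e, u, N, d1, w1, hDcp, hdim, hchain, hred, fun hb => ?_⟩
  have h1 := hb.exp hP1
  rw [hdim1, hdim] at h1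
  have h2 : (Module.finrank ℂ ↥(VS (fun j => aff (P j)) w d) : ℤ) = chi d1 w1 := by omega
  refine ⟨h2, ?_, fun hN => ?_⟩
  · obtain ⟨P', hP', h3⟩ := back_quad hchain hP
    obtain ⟨C, c1, c2, c3⟩ := hb.curve hP' (by omega)
    exact h3 C c1 c2 c3
  · rw [special_iff]
    obtain ⟨c1, -, -⟩ := quad_inv hchain
    simp only at c1
    have h3 := hDcp.chi_one (fun a => by rw [hN a]; norm_num)
    omega

end Pool.Agent.Q299.LG
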