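import Pool.Agent.Q299.LG.Main

set_option autoImplicit false

/-!
# A large class of Euler characteristic one does not split
-/

namespace Pool.Agent.Q299.LG

open MvPolynomial Pool.Agent.W609 Pool.Agent.W609.CR Pool.Agent.TH167 Pool.Agent.TH167.SH

variable {K : Type} [Field K] {n : ℕ} {P : Fin n → Fin 2 → K}

theorem pos_of_mem {w : Fin n → ℕ} {d : ℕ} {F : MvPolynomial (Fin 3) K}
    (hF : F ∈ VS (fun j => aff (P j)) w d) (hF0 : F ≠ 0) :
    0 < (Module.finrank K ↥(VS (fun j => aff (P j)) w d) : ℤ) := by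
  have hfin := vs_fin (fun j => aff (P j)) w d
  have h : 0 < Module.finrank K ↥(VS (fun j => aff (P j)) w d) := by
    rw [Module.finrank_pos_iff_exists_ne_zero]
    exact ⟨⟨F, hF⟩, fun h => hF0 (congrArg Subtype.val h)⟩
  exact_mod_cast h

/-- if there is a nonzero form whose product with `R` lies in the system of the irreducible form
`G`, of larger degree than `R`, then `R` is a unit -/
theorem unit_of_mul {f r : ℕ} {u ρ : Fin n → ℕ} {G R : MvPolynomial (Fin 3) K}
    (hGi : Irreducible G)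
    (hunG : ∀ H ∈ VS (fun j => aff (P j)) u f, ∃ c : K, H = c • G)
    (hRh : R.IsHomogeneous r) (hR0 : R ≠ 0) (hρ : ∀ i, Ord (aff (P i)) (ρ i) R) (hr : r < f)
    (h : 0 < c2 ((f : ℤ) - r) fun i => (u i : ℤ) - ρ i) : IsUnit R := by
  obtain ⟨e', he', h1⟩ := exists_form (P := P) (e := (f : ℤ) - r)
    (u := fun i => (u i : ℤ) - ρ i) (by omega) h
  obtain ⟨H, hH0, hH⟩ := exists_ne (P := P) (w := fun i => ((u i : ℤ) - ρ i).toNat) (d := e') (by
    have : 0 < c2 ((f : ℤ) - r) fun i => (u i : ℤ) - ρ i := h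
    linarith)
  have hm : H * R ∈ VS (fun j => aff (P j)) u f :=
    mul_mem (show e' + r = f by omega) (fun i => by omega) hH (mem_of_ord hRh hρ)
  obtain ⟨c, hc⟩ := hunG _ hm
  have hc0 : c ≠ 0 := by
    rintro rfl
    rw [zero_smul] at hc
    exact mul_ne_zero hH0 hR0 hc
  have hi : Irreducible (H * R) := by
    have ha : Associated G (H * R) := by
      refine ⟨(IsUnit.map C (isUnit_iff_ne_zero.2 hc0)).unit, ?_⟩
      rw [hc, smul_eq_C_mul, mul_comm]
      rfl
    exact (ha.irreducible_iff).1 hGi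
  rcases hi.isUnit_or_isUnit rfl with hu | hu
  · exfalso
    have := deg_of_unit ((mem_VS _ _ _ _).1 hH).1 hu
    omega
  · exact hu

/-- the situation: `G` irreducible, `B` not a unit, `G * B` the only curve of its class -/
structure St (P : Fin n → Fin 2 → K) (μ : ℕ) (u v : Fin n → ℕ) (f a : ℕ)
    (G B : MvPolynomial (Fin 3) K) (X p F2 κ su sv : ℤ) : Prop where
  uμ : ∀ i, u i ≤ μ
  vμ : ∀ i, v i ≤ μ
  wμ : ∀ i, u i + v i ≤ μ
  irr : Irreducible G
  homG : G.IsHomogeneous f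
  homB : B.IsHomogeneous a
  neB : B ≠ 0
  nuB : ¬ IsUnit B
  ordG : ∀ i, Ord (aff (P i)) (u i) G
  ordB : ∀ i, Ord (aff (P i)) (v i) B
  unG : ∀ H ∈ VS (fun j => aff (P j)) u f, ∃ c : K, H = c • G
  unB : ∀ H ∈ VS (fun j => aff (P j)) v a, ∃ c : K, H = c • B
  eB : c2 (a : ℤ) (fun i => (v i : ℤ)) = 2
  eX : X = c2 (f : ℤ) (fun i => (u i : ℤ))
  ep : p = (f : ℤ) * a - sp (fun i => (u i : ℤ)) (fun i => (v i : ℤ))
  eF : F2 = (f : ℤ) ^ 2 - sp (fun i => (u i : ℤ)) (fun i => (u i : ℤ))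
  eκ : κ = su - 3 * f
  esu : su = s1 fun i => (u i : ℤ)
  esv : sv = s1 fun i => (v i : ℤ)
  X1 : X = F2 - κ + 2
  X2 : X + 2 * p = 2
  F0 : 0 ≤ F2
  large : ∀ φ : ℕ, (∀ i, u i ≤ φ) → 25000 * ((φ : ℤ) + 1) ^ 2 ≤ su → X = 2
  bigv : 25000 * ((μ : ℤ) + 1) ^ 2 ≤ sv
  bigw : 100000 * ((μ : ℤ) + 1) ^ 2 ≤ su + sv

section

variable {μ : ℕ} {u v : Fin n → ℕ} {f a : ℕ}
    {G B : MvPolynomial (Fin 3) K} {X p F2 κ su sv : ℤ}

theorem St.su0 (h : St P μ u v f a G B X p F2 κ su sv) : 0 ≤ su := by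
  rw [h.esu]
  exact s1_nonneg u

theorem St.f1 (h : St P μ u v f a G B X p F2 κ su sv) : 1 ≤ f := by
  by_contra hcon
  have h0 : f = 0 := by omega
  have h1 := h.homG
  rw [h0] at h1
  exact h.irr.not_isUnit (unit_of_hom h.irr.ne_zero h1)

theorem St.degv (h : St P μ u v f a G B X p F2 κ su sv) : 150 * (a : ℤ) ≤ sv := by
  rw [h.esv]
  exact deg_small (μ := (μ : ℤ)) (by positivity) (fun i => by exact_mod_cast h.vμ i)
    (by rw [← h.esv]; exact h.bigv) h.eB

/-- the first case: the factor has a large degree -/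
theorem St.case1 (h : St P μ u v f a G B X p F2 κ su sv) (hcase : a + 2 < f) : False := by
  have h2 : ¬ 0 < c2 ((f : ℤ) - a) fun i => (u i : ℤ) - v i := fun h3 =>
    h.nuB (unit_of_mul h.irr h.unG h.homB h.neB h.ordB (by omega) h3)
  rw [c2_sub, ← h.eX, ← h.ep] at h2
  have h3 := c2_eq (a : ℤ) fun i => (v i : ℤ)
  rw [h.eB] at h3
  rw [← h.esv] at h2 h3
  have h4 : 2 * sv - 6 * (a : ℤ) + X - 2 * p ≤ 0 := by linarith
  have h5 : 25000 * ((μ : ℤ) + 1) ^ 2 ≤ su := by
    have := h.X1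
    have := h.X2
    have := h.F0
    have := h.eκ
    have := h.bigw
    have := h.degv
    have : (0 : ℤ) ≤ f := Nat.cast_nonneg _
    have : (0 : ℤ) ≤ a := Nat.cast_nonneg _
    linarith
  have h6 := h.large μ h.uμ h5
  have := h.X2
  have := h.degv
  have : (0 : ℤ) ≤ a := Nat.cast_nonneg _
  have h7 : 0 < ((μ : ℤ) + 1) ^ 2 := by positivity
  have := h.bigv
  linarith

/-- multiples of the factor -/
theorem St.mult (h : St P μ u v f a G B X p F2 κ su sv) (k : ℤ) :
    c2 ((a : ℤ) - k * f) (fun i => (v i : ℤ) - k * u i) = 2 + (k ^ 2 + k) * F2 := by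
  have h2 : (a : ℤ) * f - sp (fun i => (v i : ℤ)) (fun i => (u i : ℤ)) = p := by
    rw [h.ep, sp_comm]
    ring
  rw [c2_sub_mul, h.eB, h2, ← h.eF, ← h.esu, ← h.eκ]
  have h3 : κ = F2 + 2 * p := by
    have := h.X1
    have := h.X2
    linarith
  rw [h3]
  ring

theorem St.F20 (h : St P μ u v f a G B X p F2 κ su sv) (hcase : f ≤ a + 2) : F2 = 0 := by
  have h2 := h.mult 1
  have hF0 := h.F0
  rw [one_mul] at h2
  obtain ⟨e', he', h3⟩ := exists_form (P := P) (e := (a : ℤ) - f)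
    (u := fun i => (v i : ℤ) - 1 * u i) (by omega) (by rw [h2]; linarith)
  rw [h2] at h3
  have h1B := one_of_uniq (mem_of_ord h.homB h.ordB) h.neB h.unB
  have h4 : Module.finrank K ↥(VS (fun j => aff (P j)) (fun i => ((v i : ℤ) - 1 * u i).toNat) e')
      ≤ 1 := by
    have hinj : Function.Injective (LinearMap.mulLeft K G) := by
      intro x y hxy
      rw [LinearMap.mulLeft_apply, LinearMap.mulLeft_apply] at hxy
      exact mul_left_cancel₀ h.irr.ne_zero hxy
    have hle : Submodule.map (LinearMap.mulLeft K G)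
        (VS (fun j => aff (P j)) (fun i => ((v i : ℤ) - 1 * u i).toNat) e') ≤
          VS (fun j => aff (P j)) v a := by
      rintro _ ⟨x, hx, rfl⟩
      rw [LinearMap.mulLeft_apply]
      exact mul_mem (show f + e' = a by omega) (fun i => by omega)
        (mem_of_ord h.homG h.ordG) hx
    have hfin := vs_fin (fun j => aff (P j)) v a
    have h5 := Submodule.finrank_mono hle
    rw [h1B, ← (LinearEquiv.finrank_eq (Submodule.equivMapOfInjective _ hinj _))] at h5
    exact h5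
  omega

/-- the remainder after the division by the highest power of `G` -/
theorem St.rem (h : St P μ u v f a G B X p F2 κ su sv) (hcase : f ≤ a + 2) :
    ∃ (k r : ℕ) (ρ : Fin n → ℕ) (R : MvPolynomial (Fin 3) K), R ≠ 0 ∧ R.IsHomogeneous r ∧
      (∀ i, Ord (aff (P i)) (ρ i) R) ∧ (∀ i, v i = k * u i + ρ i) ∧ k * f + r = a ∧ r + 2 < f ∧
      1 ≤ k ∧ c2 (r : ℤ) (fun i => (ρ i : ℤ)) = 2 := by
  have hF20 := h.F20 hcase
  have hf1 := h.f1
  obtain ⟨k, hk⟩ : ∃ k, k = a / f := ⟨_, rfl⟩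
  have hk1 : k * f ≤ a := by rw [hk]; exact Nat.div_mul_le_self a f
  have hk2 : a < (k + 1) * f := by
    rw [hk, add_mul, one_mul]
    exact Nat.lt_div_mul_add hf1
  have hneg : ∀ l : ℕ, l * f ≤ a + 2 → l * f ≤ a := by
    intro l hl
    have h2 := h.mult l
    have h3 := c2_neg (e := (a : ℤ) - (l : ℤ) * f)
      (u := fun i => (v i : ℤ) - (l : ℤ) * u i) (by
        have : ((l * f : ℕ) : ℤ) ≤ ((a + 2 : ℕ) : ℤ) := by exact_mod_cast hl
        push_cast at this
        linarith) (by rw [h2, hF20]; norm_num)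
    have : ((l * f : ℕ) : ℤ) ≤ ((a : ℕ) : ℤ) := by
      push_cast
      linarith
    exact_mod_cast this
  have hk3 : a + 2 < (k + 1) * f := by
    by_contra hcon
    have := hneg (k + 1) (not_lt.1 hcon)
    omega
  have hk0 : 1 ≤ k := by
    by_contra hcon
    have h0 : k = 0 := by omega
    rw [h0] at hk3
    omega
  have hmk := h.mult k
  rw [hF20] at hmk
  obtain ⟨r, hr, h3⟩ := exists_form (P := P) (e := (a : ℤ) - k * f)
    (u := fun i => (v i : ℤ) - k * u i) (by
      have : ((k * f : ℕ) : ℤ) ≤ ((a : ℕ) : ℤ) := by exact_mod_cast hk1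
      push_cast at this
      linarith) (by rw [hmk]; norm_num)
  rw [hmk] at h3
  obtain ⟨R, hR0, hR⟩ := exists_ne (P := P) (w := fun i => ((v i : ℤ) - k * u i).toNat) (d := r)
    (by linarith)
  have hRh := ((mem_VS _ _ _ _).1 hR).1
  have hex : ∀ i, ∃ m, Ord (aff (P i)) m R := fun i => exists_ord' hR0 hRh
  choose ρ hρ using hex
  have hrn : k * f + r = a := by
    have : ((k * f + r : ℕ) : ℤ) = a := by
      push_cast
      linarith
    exact_mod_cast this
  have hGk : G ^ k ∈ VS (fun j => aff (P j)) (fun i => k * u i) (k * f) := by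
    refine (mem_VS _ _ _ _).2 ⟨?_, fun i => (ord_pow (h.ordG i) k).1⟩
    rw [mul_comm]
    exact h.homG.pow k
  have hGR : G ^ k * R ∈ VS (fun j => aff (P j)) v a :=
    mul_mem hrn (fun i => by
      show v i ≤ k * u i + ((v i : ℤ) - k * u i).toNat
      have h4 : ((k * u i : ℕ) : ℤ) = k * u i := by push_cast; rfl
      rw [← h4]
      omega) hGk hR
  obtain ⟨c, hc⟩ := h.unB _ hGR
  have hc0 : c ≠ 0 := by
    rintro rfl
    rw [zero_smul] at hc
    exact mul_ne_zero (pow_ne_zero k h.irr.ne_zero) hR0 hc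
  have hvρ : ∀ i, v i = k * u i + ρ i := by
    intro i
    have h4 := ord_smul hc0 (h.ordB i)
    rw [← hc] at h4
    exact ord_unique h4 (ord_mul (ord_pow (h.ordG i) k) (hρ i))
  refine ⟨k, r, ρ, R, hR0, hRh, hρ, hvρ, hrn, ?_, hk0, ?_⟩
  · have : (k + 1) * f = k * f + f := by ring
    omega
  · have evρ : (fun i => (v i : ℤ) - k * u i) = fun i => (ρ i : ℤ) := by
      funext i
      rw [hvρ i]
      push_cast
      ring
    rw [hr, ← evρ, hmk]
    norm_num

/-- the factor is not large against its share -/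
theorem St.small (h : St P μ u v f a G B X p F2 κ su sv) (hF20 : F2 = 0) {φ : ℕ}
    (huφ : ∀ i, u i ≤ φ) : 1 ≤ φ ∧ su < 25000 * ((φ : ℤ) + 1) ^ 2 := by
  have hsp := sp_le (μ := (φ : ℤ)) (u := u) fun i => by exact_mod_cast huφ i
  rw [← h.esu] at hsp
  have hf1' : (1 : ℤ) ≤ f := by exact_mod_cast h.f1
  have hF := h.eF
  have hφ1 : 1 ≤ φ := by
    by_contra hcon
    have h0 : φ = 0 := by omega
    rw [h0] at hsp
    push_cast at hsp
    have : (1 : ℤ) ≤ (f : ℤ) ^ 2 := one_le_pow₀ hf1'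
    linarith
  refine ⟨hφ1, ?_⟩
  by_contra hcon
  push Not at hcon
  have h4 := h.large φ huφ hcon
  have h5 : su = 3 * f := by
    have := h.X1
    have := h.eκ
    linarith
  have h6 : (f : ℤ) ^ 2 ≤ φ * (3 * f) := by
    rw [← h5]
    linarith
  have h7 : (f : ℤ) ≤ 3 * φ := by
    by_contra hcon2
    push Not at hcon2
    have : (f : ℤ) * (3 * φ) < f * f := mul_lt_mul_of_pos_left hcon2 (by linarith)
    linarith
  have h8 : (φ : ℤ) + 1 ≤ ((φ : ℤ) + 1) ^ 2 := by
    have : (0 : ℤ) ≤ φ := Nat.cast_nonneg _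
    nlinarith
  linarith

/-- the second case -/
theorem St.case2 (h : St P μ u v f a G B X p F2 κ su sv) (hcase : f ≤ a + 2) : False := by
  have hF20 := h.F20 hcase
  obtain ⟨k, r, ρ, R, hR0, hRh, hρ, hvρ, hrn, hrf, hk1, eR⟩ := h.rem hcase
  obtain ⟨φ, hφ⟩ : ∃ φ, φ = μ / (k + 1) := ⟨_, rfl⟩
  have hφμ : (k + 1) * φ ≤ μ := by
    rw [hφ, mul_comm]
    exact Nat.div_mul_le_self μ (k + 1)
  have huφ : ∀ i, u i ≤ φ := by
    intro i
    rw [hφ, Nat.le_div_iff_mul_le (by omega)]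
    have h5 := hvρ i
    have h6 := h.wμ i
    have h7 : u i * (k + 1) = k * u i + u i := by ring
    omega
  obtain ⟨hφ1, hsu1⟩ := h.small hF20 huφ
  have hkf : ((k : ℤ) + 1) * φ ≤ μ := by exact_mod_cast hφμ
  have hφ1' : (1 : ℤ) ≤ φ := by exact_mod_cast hφ1
  have hk0' : (1 : ℤ) ≤ k := by exact_mod_cast hk1
  have hkμ : (k : ℤ) + 1 ≤ μ := by
    have : ((k : ℤ) + 1) * 1 ≤ (k + 1) * φ := mul_le_mul_of_nonneg_left hφ1' (by linarith)
    linarith
  have hφμ' : (φ : ℤ) ≤ μ := by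
    have : 1 * (φ : ℤ) ≤ (k + 1) * φ := mul_le_mul_of_nonneg_right (by linarith) (by linarith)
    linarith
  have hksu : ((k : ℤ) + 1) * su ≤ 50000 * ((μ : ℤ) + 1) ^ 2 := by
    have h4 : ((k : ℤ) + 1) * (φ + 1) ≤ 2 * μ := by linarith
    calc ((k : ℤ) + 1) * su ≤ (k + 1) * (25000 * ((φ : ℤ) + 1) ^ 2) :=
          mul_le_mul_of_nonneg_left hsu1.le (by linarith)
      _ = 25000 * ((((k : ℤ) + 1) * (φ + 1)) * (φ + 1)) := by ring
      _ ≤ 25000 * ((2 * μ) * (μ + 1)) := by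
          refine mul_le_mul_of_nonneg_left ?_ (by norm_num)
          exact mul_le_mul h4 (by linarith) (by linarith) (by linarith)
      _ ≤ _ := by
          have : (0 : ℤ) ≤ μ := by linarith
          nlinarith
  obtain ⟨sρ, hsρd⟩ : ∃ sρ, sρ = s1 fun i => (ρ i : ℤ) := ⟨_, rfl⟩
  have evρ : (fun i => (v i : ℤ) - k * u i) = fun i => (ρ i : ℤ) := by
    funext i
    rw [hvρ i]
    push_cast
    ring
  have hsvρ : sv = k * su + sρ := by
    have h4 : s1 (fun i => (v i : ℤ) - k * u i) = sρ := by rw [evρ, hsρd]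
    rw [s1_sub, s1_smul, ← h.esv, ← h.esu] at h4
    linarith
  have hbw := h.bigw
  have hsρ : 50000 * ((μ : ℤ) + 1) ^ 2 ≤ sρ := by
    have : ((k : ℤ) + 1) * su = k * su + su := by ring
    linarith
  have hρμ : ∀ i, (ρ i : ℤ) ≤ μ := fun i => by
    have h4 := h.vμ i
    have h5 := hvρ i
    have h7 : ρ i ≤ μ := by omega
    exact_mod_cast h7
  have hm2 : 0 < ((μ : ℤ) + 1) ^ 2 := by positivity
  have hdegρ := deg_small (by positivity) hρμ (by rw [← hsρd]; linarith) eR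
  rw [← hsρd] at hdegρ
  have h4 : ¬ 0 < c2 ((f : ℤ) - r) fun i => (u i : ℤ) - ρ i := by
    intro h3
    have hRu := unit_of_mul h.irr h.unG hRh hR0 hρ (by omega) h3
    have h5 : ∀ i, ρ i = 0 := by
      intro i
      by_contra hcon
      have h6 : Van (aff (P i)) 1 R := van_mono (by omega) (hρ i).1
      obtain ⟨x, -, hx⟩ := MvPolynomial.isUnit_iff_eq_C_of_isReduced.1 hRu
      rw [van_one, hx, MvPolynomial.eval_C] at h6
      rw [h6, map_zero] at hx
      exact hR0 hx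
    have h6 : sρ = 0 := by
      rw [hsρd]
      unfold s1
      exact Finset.sum_eq_zero fun i _ => by rw [h5 i]; rfl
    linarith
  have hr : (r : ℤ) = a - k * f := by
    have : ((k * f + r : ℕ) : ℤ) = a := by exact_mod_cast hrn
    push_cast at this
    linarith
  have hpR : (f : ℤ) * r - sp (fun i => (u i : ℤ)) (fun i => (ρ i : ℤ)) = p := by
    have h5 : sp (fun i => (u i : ℤ)) (fun i => (ρ i : ℤ)) =
        sp (fun i => (v i : ℤ)) (fun i => (u i : ℤ)) -
          k * sp (fun i => (u i : ℤ)) (fun i => (u i : ℤ)) := by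
      rw [← evρ, sp_comm, sp_sub, sp_smul]
    have h6 := h.ep
    have h7 := h.eF
    rw [sp_comm] at h6
    rw [h5, hr, h6]
    linear_combination (k : ℤ) * h7 - (k : ℤ) * hF20
  rw [c2_sub, ← h.eX, hpR] at h4
  have h5 := c2_eq (r : ℤ) fun i => (ρ i : ℤ)
  rw [eR] at h5
  rw [← hsρd] at h4 h5
  have h6 : 2 * sρ - 6 * (r : ℤ) + X - 2 * p ≤ 0 := by linarith
  have h7 : ((φ : ℤ) + 1) ^ 2 ≤ (μ + 1) ^ 2 := pow_le_pow_left₀ (by linarith) (by linarith) 2
  have hf1' : (1 : ℤ) ≤ f := by exact_mod_cast h.f1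
  have := h.X1
  have := h.X2
  have := h.eκ
  have : (0 : ℤ) ≤ r := Nat.cast_nonneg _
  linarith

end

section

variable [CharZero K] (hP : AlgebraicIndependent ℚ (fun ij : Fin n × Fin 2 => P ij.1 ij.2))

include hP

theorem key {μ : ℕ} {w u v : Fin n → ℕ} {f a : ℕ} {G B : MvPolynomial (Fin 3) K}
    (hwμ : ∀ i, w i ≤ μ) (hsum : 100000 * (μ + 1) ^ 2 ≤ ∑ i, w i) (hw : ∀ i, w i = u i + v i)
    (hχ : chi (f + a) w = 1)
    (hGi : Irreducible G) (hGh : G.IsHomogeneous f) (hBh : B.IsHomogeneous a) (hB0 : B ≠ 0)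
    (hBu : ¬ IsUnit B) (hu : ∀ i, Ord (aff (P i)) (u i) G) (hv : ∀ i, Ord (aff (P i)) (v i) B)
    (hbig : 25000 * (μ + 1) ^ 2 ≤ ∑ i, v i) : False := by
  classical
  have hG0 := hGi.ne_zero
  have hwB : Bg μ w := ⟨hwμ, by omega⟩
  have hvμ : ∀ i, v i ≤ μ := fun i => by
    have := hwμ i
    have := hw i
    omega
  have huμ : ∀ i, u i ≤ μ := fun i => by
    have := hwμ i
    have := hw i
    omega
  have hvB : Bg μ v := ⟨hvμ, hbig⟩
  have hGm := mem_of_ord hGh hu
  have hBm := mem_of_ord hBh hv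
  have hFm : G * B ∈ VS (fun j => aff (P j)) w (f + a) := mul_mem rfl (fun i => (hw i).le) hGm hBm
  have hF0 : G * B ≠ 0 := mul_ne_zero hG0 hB0
  have h1 : Module.finrank K ↥(VS (fun j => aff (P j)) w (f + a)) = 1 := by
    have := hwB.dim hP (f + a)
    rw [hχ] at this
    norm_num at this
    exact this
  have hunF := uniq_of_one h1 hFm hF0
  have hunB : ∀ H ∈ VS (fun j => aff (P j)) v a, ∃ c : K, H = c • B :=
    uniq_cof rfl (fun i => (hw i).le) hGm hG0 hunF
  have hunG : ∀ H ∈ VS (fun j => aff (P j)) u f, ∃ c : K, H = c • G :=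
    uniq_cof (w := w) (add_comm a f) (fun i => by rw [hw i, add_comm]) hBm hB0
      (by rw [mul_comm B G]; exact hunF)
  have h1B := one_of_uniq hBm hB0 hunB
  have h1G := one_of_uniq hGm hG0 hunG
  have hχB : chi a v = 1 := by
    have := hvB.dim hP a
    rw [h1B] at this
    omega
  -- the numbers
  have ew : (fun i => (w i : ℤ)) = fun i => (u i : ℤ) + v i := by
    funext i
    rw [hw i]
    push_cast
    rfl
  have eW : c2 ((f : ℤ) + a) (fun i => (u i : ℤ) + v i) = 2 := by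
    have h := two_chi' (f + a) w
    rw [hχ, ew] at h
    push_cast at h
    linarith
  have eB : c2 (a : ℤ) (fun i => (v i : ℤ)) = 2 := by
    rw [← two_chi', hχB]
    norm_num
  have eA := c2_add (f : ℤ) a (fun i => (u i : ℤ)) (fun i => (v i : ℤ))
  obtain ⟨X, hX⟩ : ∃ X, X = c2 (f : ℤ) (fun i => (u i : ℤ)) := ⟨_, rfl⟩
  obtain ⟨p, hp⟩ : ∃ p, p = (f : ℤ) * a - sp (fun i => (u i : ℤ)) (fun i => (v i : ℤ)) := ⟨_, rfl⟩
  obtain ⟨F2, hF2⟩ : ∃ F2, F2 = (f : ℤ) ^ 2 - sp (fun i => (u i : ℤ)) (fun i => (u i : ℤ)) :=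
    ⟨_, rfl⟩
  obtain ⟨sv, hsvd⟩ : ∃ sv, sv = s1 fun i => (v i : ℤ) := ⟨_, rfl⟩
  obtain ⟨su, hsud⟩ : ∃ su, su = s1 fun i => (u i : ℤ) := ⟨_, rfl⟩
  obtain ⟨κ, hκ⟩ : ∃ κ, κ = su - 3 * f := ⟨_, rfl⟩
  have hXe : X = F2 - κ + 2 := by
    rw [hX, c2_eq, hF2, hκ, hsud]
    ring
  have hXp : X + 2 * p = 2 := by
    rw [eW, eB, ← hX, ← hp] at eA
    linarith
  -- the self-intersection is not negative
  have hF2n : 0 ≤ F2 := by
    have hbg : Bg (2 * μ) (fun i => u i + w i) := by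
      refine ⟨fun i => ?_, ?_⟩
      · have := hwμ i
        have := huμ i
        show u i + w i ≤ 2 * μ
        omega
      · have h2 : ∑ i, w i ≤ ∑ i, (u i + w i) := Finset.sum_le_sum fun i _ => by omega
        have h3 : (2 * μ + 1) ^ 2 ≤ (2 * (μ + 1)) ^ 2 := Nat.pow_le_pow_left (by omega) 2
        rw [mul_pow] at h3
        show 25000 * (2 * μ + 1) ^ 2 ≤ ∑ i, (u i + w i)
        omega
    have hmem : G * (G * B) ∈ VS (fun j => aff (P j)) (fun i => u i + w i) (f + (f + a)) :=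
      mul_mem rfl (fun i => le_rfl) hGm hFm
    have hpos := pos_of_mem hmem (mul_ne_zero hG0 hF0)
    rw [hbg.dim hP] at hpos
    have h2 : 0 < chi (f + (f + a)) (fun i => u i + w i) := by omega
    have h3 := two_chi' (f + (f + a)) (fun i => u i + w i)
    have h4 : (fun i => ((u i + w i : ℕ) : ℤ)) = fun i => (u i : ℤ) + ((u i : ℤ) + v i) := by
      funext i
      rw [hw i]
      push_cast
      rfl
    rw [h4] at h3
    push_cast at h3
    rw [c2_add, eW, ← hX, sp_comm (fun i => (u i : ℤ)) (fun i => (u i : ℤ) + (v i : ℤ)), sp_add,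
      sp_comm (fun i => (v i : ℤ))] at h3
    have h5 : (f : ℤ) * (f + a) = f ^ 2 + f * a := by ring
    rw [h5] at h3
    omega
  have hsW : 100000 * ((μ : ℤ) + 1) ^ 2 ≤ s1 (fun i => (u i : ℤ)) + s1 (fun i => (v i : ℤ)) := by
    rw [← s1_add, ← ew]
    have h3 : ((100000 * (μ + 1) ^ 2 : ℕ) : ℤ) ≤ ((∑ i, w i : ℕ) : ℤ) := by exact_mod_cast hsum
    push_cast at h3
    exact h3
  have hsv := hvB.s1
  rw [← hsvd] at hsv hsW
  rw [← hsud] at hsW
  -- if `u` is large then `p = 0`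
  have hlarge : ∀ φ : ℕ, (∀ i, u i ≤ φ) → 25000 * ((φ : ℤ) + 1) ^ 2 ≤ su → X = 2 := by
    intro φ hφ hle
    have hb : Bg φ u := Bg.of_s1 hφ (by rw [← hsud]; exact hle)
    have h2 := hb.dim hP f
    rw [h1G] at h2
    have h3 := two_chi' f u
    rw [← hX] at h3
    omega
  have hst : St P μ u v f a G B X p F2 κ su sv :=
    ⟨huμ, hvμ, fun i => by rw [← hw i]; exact hwμ i, hGi, hGh, hBh, hB0, hBu, hu, hv, hunG, hunB,
      eB, hX, hp, hF2, hκ, hsud, hsvd, hXe, hXp, hF2n, hlarge, hsv, hsW⟩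
  rcases Nat.lt_or_ge (a + 2) f with hcase | hcase
  · exact hst.case1 hcase
  · exact hst.case2 hcase

/-- **the only curve of a large class of Euler characteristic one is irreducible, with exactly the
given multiplicities** -/
theorem irr_one {μ d : ℕ} {w : Fin n → ℕ}
    (hwμ : ∀ i, w i ≤ μ) (hsum : 100000 * (μ + 1) ^ 2 ≤ ∑ i, w i) (hχ : chi d w = 1)
    {F : MvPolynomial (Fin 3) K} (hF : F ∈ VS (fun j => aff (P j)) w d) (hF0 : F ≠ 0) :
    Irreducible F ∧ ∀ i, Ord (aff (P i)) (w i) F := by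
  classical
  have hFh := ((mem_VS _ _ _ _).1 hF).1
  -- the multiplicities
  have hord : ∀ i, Ord (aff (P i)) (w i) F := by
    intro i
    refine ⟨((mem_VS _ _ _ _).1 hF).2 i, fun hcon => ?_⟩
    have hmem : F ∈ VS (fun j => aff (P j)) (fun j => w j + if j = i then 1 else 0) d := by
      refine (mem_VS _ _ _ _).2 ⟨hFh, fun j => ?_⟩
      by_cases hj : j = i
      · subst hj
        simpa using hcon
      · simpa [hj] using ((mem_VS _ _ _ _).1 hF).2 j
    have hb : Bg (μ + 1) (fun j => w j + if j = i then 1 else 0) := by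
      refine ⟨fun j => ?_, ?_⟩
      · have := hwμ j
        show w j + (if j = i then 1 else 0) ≤ μ + 1
        split_ifs <;> omega
      · have h2 : ∑ j, w j ≤ ∑ j, (w j + if j = i then 1 else 0) :=
          Finset.sum_le_sum fun j _ => by omega
        have h3 : (μ + 1 + 1) ^ 2 ≤ (2 * (μ + 1)) ^ 2 := Nat.pow_le_pow_left (by omega) 2
        rw [mul_pow] at h3
        show 25000 * (μ + 1 + 1) ^ 2 ≤ ∑ j, (w j + if j = i then 1 else 0)
        omega
    have hpos := pos_of_mem hmem hF0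
    rw [hb.dim hP] at hpos
    have h4 : chi d (fun j => w j + if j = i then 1 else 0) = chi d w - (w i + 1) := by
      unfold chi
      have h5 : ∀ j, ((w j + (if j = i then 1 else 0) + 1).choose 2 : ℤ) =
          ((w j + 1).choose 2 : ℤ) + if j = i then ((w i : ℤ) + 1) else 0 := by
        intro j
        split_ifs with hj
        · subst hj
          have h6 : (w j + 1 + 1).choose 2 = (w j + 1).choose 1 + (w j + 1).choose 2 :=
            Nat.choose_succ_succ' _ _
          rw [Nat.choose_one_right] at h6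
          have h7 : w j + 1 + 1 = w j + (1 : ℕ) + 1 := rfl
          rw [h6]
          push_cast
          ring
        · rw [Nat.add_zero, add_zero]
      rw [Finset.sum_congr rfl fun j _ => h5 j, Finset.sum_add_distrib,
        Finset.sum_ite_eq' Finset.univ i, if_pos (Finset.mem_univ i)]
      ring
    rw [h4, hχ] at hpos
    have : (0 : ℤ) ≤ w i := Nat.cast_nonneg _
    omega
  refine ⟨?_, hord⟩
  have hFd : F.totalDegree = d := hFh.totalDegree hF0
  have hFu : ¬ IsUnit F := by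
    intro hu
    have h1 := deg_of_unit hFh hu
    have h2 := two_chi' d w
    rw [hχ, h1] at h2
    have h3 := sp_le (μ := 0) (u := w)
    have h4 : 0 < s1 fun i => (w i : ℤ) := by
      unfold s1
      have h5 : ((100000 * (μ + 1) ^ 2 : ℕ) : ℤ) ≤ ((∑ i, w i : ℕ) : ℤ) := by exact_mod_cast hsum
      push_cast at h5
      have : 0 < ((μ : ℤ) + 1) ^ 2 := by positivity
      linarith
    rw [c2_eq] at h2
    have h5 : 0 ≤ sp (fun i => (w i : ℤ)) (fun i => (w i : ℤ)) :=
      Finset.sum_nonneg fun i _ => by positivity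
    push_cast at h2
    linarith
  -- the factorization of a nonunit
  have hfac : ∀ G B : MvPolynomial (Fin 3) K, F = G * B → Irreducible G → ¬ IsUnit B →
      ∃ (f a : ℕ) (u v : Fin n → ℕ), f + a = d ∧ G.IsHomogeneous f ∧ B.IsHomogeneous a ∧
        (∀ i, Ord (aff (P i)) (u i) G) ∧ (∀ i, Ord (aff (P i)) (v i) B) ∧
        (∀ i, w i = u i + v i) := by
    intro G B hGB hG hB
    have hG0 := hG.ne_zero
    have hB0 : B ≠ 0 := by
      rintro rfl
      exact hF0 (by rw [hGB, mul_zero])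
    have hGh := Pool.Agent.Chud.homog_of_dvd hFh hF0 ⟨B, hGB⟩
    have hBh := Pool.Agent.Chud.homog_of_dvd hFh hF0 ⟨G, by rw [hGB, mul_comm]⟩
    have hu : ∀ i, ∃ m, Ord (aff (P i)) m G := fun i => exists_ord' hG0 hGh
    have hv : ∀ i, ∃ m, Ord (aff (P i)) m B := fun i => exists_ord' hB0 hBh
    choose u hu using hu
    choose v hv using hv
    refine ⟨G.totalDegree, B.totalDegree, u, v, ?_, hGh, hBh, hu, hv, fun i => ?_⟩
    · rw [← totalDegree_mul_of_isDomain hG0 hB0, ← hGB]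
      exact hFd
    · have h1 := ord_mul (hu i) (hv i)
      rw [← hGB] at h1
      exact ord_unique (hord i) h1
  have hkey : ∀ (G B : MvPolynomial (Fin 3) K) (f a : ℕ) (u v : Fin n → ℕ), F = G * B →
      Irreducible G → ¬ IsUnit B → f + a = d → G.IsHomogeneous f → B.IsHomogeneous a →
        (∀ i, Ord (aff (P i)) (u i) G) → (∀ i, Ord (aff (P i)) (v i) B) →
        (∀ i, w i = u i + v i) → ¬ 25000 * (μ + 1) ^ 2 ≤ ∑ i, v i := by
    intro G B f a u v hGB hG hB hd hGh hBh hu hv hw hbig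
    refine key hP hwμ hsum hw (by rw [hd]; exact hχ) hG hGh hBh ?_ hB hu hv hbig
    rintro rfl
    exact hF0 (by rw [hGB, mul_zero])
  obtain ⟨G, hG, B, hGB⟩ := WfDvdMonoid.exists_irreducible_factor hFu hF0
  by_cases hB : IsUnit B
  · rw [hGB]
    exact (irreducible_mul_isUnit hB).2 hG
  exfalso
  obtain ⟨f, a, u, v, hd, hGh, hBh, hu, hv, hw⟩ := hfac G B hGB hG hB
  have h1 := hkey G B f a u v hGB hG hB hd hGh hBh hu hv hw
  have hB0 : B ≠ 0 := by
    rintro rfl
    exact hF0 (by rw [hGB, mul_zero])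
  obtain ⟨G', hG', B', hGB'⟩ := WfDvdMonoid.exists_irreducible_factor hB hB0
  have hFG : F = G' * (G * B') := by
    rw [hGB, hGB']
    ring
  have hnu : ¬ IsUnit (G * B') := fun h => hG.not_isUnit (isUnit_of_mul_isUnit_left h)
  obtain ⟨f', a', u', v', hd', hGh', hBh', hu', hv', hw'⟩ := hfac G' (G * B') hFG hG' hnu
  refine hkey G' (G * B') f' a' u' v' hFG hG' hnu hd' hGh' hBh' hu' hv' hw' ?_
  have h2 : ∀ i, u i ≤ v' i := by
    intro i
    by_contra hcon
    exact (hv' i).2 (by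
      have h3 : Van (aff (P i)) (v' i + 1) G := van_mono (by omega) (hu i).1
      have h4 := van_mul h3 (van_zero (aff (P i)) B')
      rwa [add_zero] at h4)
  have h3 : ∑ i, w i = ∑ i, u i + ∑ i, v i := by
    rw [← Finset.sum_add_distrib]
    exact Finset.sum_congr rfl fun i _ => hw i
  have h4 : ∑ i, u i ≤ ∑ i, v' i := Finset.sum_le_sum fun i _ => h2 i
  omega

end

end Pool.Agent.Q299.LG
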