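import Pool.Agent.Q299.LG.Num
import Pool.Agent.Y205.AV.Large

set_option autoImplicit false

/-!
# The only curve of a large class of Euler characteristic one is irreducible
-/

namespace Pool.Agent.Q299.LG

open MvPolynomial Pool.Agent.W609 Pool.Agent.W609.CR Pool.Agent.TH167 Pool.Agent.TH167.SH
  Pool.Agent.H932R3
open Pool.Agent.TH442.NF (expDim_iff)

variable {K : Type} [Field K] {n : ℕ} {P : Fin n → Fin 2 → K}

/-- the multiplicities are at most `μ`, with a sum of at least `25000 (μ + 1) ^ 2` -/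
def Bg (μ : ℕ) (u : Fin n → ℕ) : Prop := (∀ i, u i ≤ μ) ∧ 25000 * (μ + 1) ^ 2 ≤ ∑ i, u i

theorem Bg.s1 {μ : ℕ} {u : Fin n → ℕ} (h : Bg μ u) :
    25000 * ((μ : ℤ) + 1) ^ 2 ≤ LG.s1 fun i => (u i : ℤ) := by
  have h1 : ((25000 * (μ + 1) ^ 2 : ℕ) : ℤ) ≤ ((∑ i, u i : ℕ) : ℤ) := by exact_mod_cast h.2
  push_cast at h1
  exact h1

theorem Bg.of_s1 {μ : ℕ} {u : Fin n → ℕ} (h : ∀ i, u i ≤ μ)
    (h2 : 25000 * ((μ : ℤ) + 1) ^ 2 ≤ LG.s1 fun i => (u i : ℤ)) : Bg μ u := by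
  refine ⟨h, ?_⟩
  have h3 : ((25000 * (μ + 1) ^ 2 : ℕ) : ℤ) ≤ ((∑ i, u i : ℕ) : ℤ) := by
    push_cast
    exact h2
  exact_mod_cast h3

theorem Bg.dim [CharZero K] (hP : AlgebraicIndependent ℚ (fun ij : Fin n × Fin 2 => P ij.1 ij.2))
    {μ : ℕ} {u : Fin n → ℕ} (h : Bg μ u) (e : ℕ) :
    (Module.finrank K ↥(VS (fun j => aff (P j)) u e) : ℤ) = max 0 (chi e u) := by
  rw [← expDim_iff]
  refine Pool.Agent.Y205.AV.large_exp ⟨Finset.univ, μ, (Finset.univ.image u).card,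
    fun i _ => h.1 i, fun i hi => absurd (Finset.mem_univ i) hi, le_rfl, Or.inl ?_⟩ hP
  have h1 := h.s1
  unfold LG.s1 at h1
  have h2 : 0 ≤ |((e + 2).choose 2 : ℤ) - ∑ i, ((u i + 1).choose 2 : ℤ)| := abs_nonneg _
  linarith

/-- a class which contains a form -/
theorem exists_form {e : ℤ} {u : Fin n → ℤ} (he : -2 ≤ e) (h : 0 < c2 e u) :
    ∃ e' : ℕ, (e' : ℤ) = e ∧
      c2 e u ≤ 2 * (Module.finrank K ↥(VS (fun j => aff (P j)) (fun i => (u i).toNat) e') : ℤ) := by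
  have h0 := c2_neg he h
  obtain ⟨e', rfl⟩ := Int.eq_ofNat_of_zero_le h0
  refine ⟨e', rfl, ?_⟩
  have h1 := c2_le e' u
  have h2 := chi_le_dim P e' (fun i => (u i).toNat)
  linarith

theorem exists_ne {w : Fin n → ℕ} {d : ℕ}
    (h : 0 < (Module.finrank K ↥(VS (fun j => aff (P j)) w d) : ℤ)) :
    ∃ F, F ≠ 0 ∧ F ∈ VS (fun j => aff (P j)) w d := by
  have hfin := vs_fin (fun j => aff (P j)) w d
  have h1 : 0 < Module.finrank K ↥(VS (fun j => aff (P j)) w d) := by exact_mod_cast h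
  obtain ⟨⟨F, hF⟩, h0⟩ := Module.finrank_pos_iff_exists_ne_zero.1 h1
  exact ⟨F, fun h => h0 (Subtype.ext h), hF⟩

theorem uniq_of_one {w : Fin n → ℕ} {d : ℕ} {F : MvPolynomial (Fin 3) K}
    (h1 : Module.finrank K ↥(VS (fun j => aff (P j)) w d) = 1)
    (hF : F ∈ VS (fun j => aff (P j)) w d) (hF0 : F ≠ 0) :
    ∀ H ∈ VS (fun j => aff (P j)) w d, ∃ c : K, H = c • F := by
  intro H hH
  obtain ⟨c, hc⟩ := (finrank_eq_one_iff_of_nonzero'
    (⟨F, hF⟩ : ↥(VS (fun j => aff (P j)) w d))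
    (fun h => hF0 (congrArg Subtype.val h))).1 h1 ⟨H, hH⟩
  exact ⟨c, (congrArg Subtype.val hc).symm⟩

theorem one_of_uniq {w : Fin n → ℕ} {d : ℕ} {F : MvPolynomial (Fin 3) K}
    (hF : F ∈ VS (fun j => aff (P j)) w d) (hF0 : F ≠ 0)
    (h : ∀ H ∈ VS (fun j => aff (P j)) w d, ∃ c : K, H = c • F) :
    Module.finrank K ↥(VS (fun j => aff (P j)) w d) = 1 := by
  refine (finrank_eq_one_iff_of_nonzero'
    (⟨F, hF⟩ : ↥(VS (fun j => aff (P j)) w d))
    (fun h => hF0 (congrArg Subtype.val h))).2 ?_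
  rintro ⟨H, hH⟩
  obtain ⟨c, hc⟩ := h H hH
  exact ⟨c, Subtype.ext hc.symm⟩

theorem mul_mem {w u v : Fin n → ℕ} {d a f : ℕ} (hd : f + a = d) (hw : ∀ i, w i ≤ u i + v i)
    {G H : MvPolynomial (Fin 3) K} (hG : G ∈ VS (fun j => aff (P j)) u f)
    (hH : H ∈ VS (fun j => aff (P j)) v a) : G * H ∈ VS (fun j => aff (P j)) w d := by
  rw [mem_VS] at hG hH ⊢
  refine ⟨hd ▸ hG.1.mul hH.1, fun i => van_mono (hw i) (van_mul (hG.2 i) (hH.2 i))⟩

/-- the cofactor of a form in a one-dimensional system -/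
theorem uniq_cof {w u v : Fin n → ℕ} {d a f : ℕ} (hd : f + a = d) (hw : ∀ i, w i ≤ u i + v i)
    {G B : MvPolynomial (Fin 3) K} (hG : G ∈ VS (fun j => aff (P j)) u f) (hG0 : G ≠ 0)
    (hun : ∀ H ∈ VS (fun j => aff (P j)) w d, ∃ c : K, H = c • (G * B)) :
    ∀ H ∈ VS (fun j => aff (P j)) v a, ∃ c : K, H = c • B := by
  intro H hH
  obtain ⟨c, hc⟩ := hun _ (mul_mem hd hw hG hH)
  refine ⟨c, mul_left_cancel₀ hG0 ?_⟩
  rw [hc, mul_smul_comm]

theorem exists_ord' {a : Fin 2 → K} {f : MvPolynomial (Fin 3) K} {e : ℕ} (hf0 : f ≠ 0)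
    (hf : f.IsHomogeneous e) : ∃ m, Ord (aff a) m f := by
  classical
  have h0 : ∃ m, ¬ Van (aff a) m f := ⟨e + 1, fun h => by
    have := van_le hf0 hf h
    omega⟩
  obtain ⟨m, hm1, hm2⟩ : ∃ m, ¬ Van (aff a) m f ∧ ∀ l < m, Van (aff a) l f := by
    refine ⟨Nat.find h0, Nat.find_spec h0, fun l hl => ?_⟩
    have := Nat.find_min h0 hl
    rwa [not_not] at this
  cases m with
  | zero => exact absurd (van_zero _ _) hm1
  | succ m => exact ⟨m, hm2 m (Nat.lt_succ_self m), hm1⟩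

theorem unit_of_hom {f : MvPolynomial (Fin 3) K} (hf0 : f ≠ 0) (hf : f.IsHomogeneous 0) :
    IsUnit f := by
  have h1 : f.totalDegree = 0 := hf.totalDegree hf0
  rw [totalDegree_eq_zero_iff_eq_C] at h1
  rw [h1]
  refine IsUnit.map C (isUnit_iff_ne_zero.2 fun h => hf0 ?_)
  rw [h1, h, map_zero]

theorem deg_of_unit {f : MvPolynomial (Fin 3) K} {e : ℕ} (hf : f.IsHomogeneous e)
    (hu : IsUnit f) : e = 0 := by
  have h1 : f.totalDegree = e := hf.totalDegree hu.ne_zero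
  obtain ⟨c, -, rfl⟩ := MvPolynomial.isUnit_iff_eq_C_of_isReduced.1 hu
  rw [totalDegree_C] at h1
  exact h1.symm

theorem ord_smul {v : Fin 3 → K} {m : ℕ} {f : MvPolynomial (Fin 3) K} {c : K} (hc : c ≠ 0)
    (h : Ord v m f) : Ord v m (c • f) := by
  rw [smul_eq_C_mul]
  have h0 : Ord v 0 (C c : MvPolynomial (Fin 3) K) := by
    refine ⟨van_zero _ _, fun h => ?_⟩
    rw [zero_add, van_one, MvPolynomial.eval_C] at h
    exact hc h
  have h1 := ord_mul h0 h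
  rwa [zero_add] at h1

theorem ord_pow {v : Fin 3 → K} {m : ℕ} {f : MvPolynomial (Fin 3) K} (h : Ord v m f) (k : ℕ) :
    Ord v (k * m) (f ^ k) := by
  induction k with
  | zero =>
    rw [zero_mul, pow_zero]
    refine ⟨van_zero _ _, fun h => ?_⟩
    rw [zero_add, van_one, map_one] at h
    exact one_ne_zero h
  | succ k ih =>
    rw [pow_succ, add_mul, one_mul]
    exact ord_mul ih h

theorem mem_of_ord {w : Fin n → ℕ} {d : ℕ} {F : MvPolynomial (Fin 3) K} (hF : F.IsHomogeneous d)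
    (h : ∀ i, Ord (aff (P i)) (w i) F) : F ∈ VS (fun j => aff (P j)) w d :=
  (mem_VS _ _ _ _).2 ⟨hF, fun i => (h i).1⟩

end Pool.Agent.Q299.LG
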