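import Mathlib
import Pool.Agent.TH167.SH.Final

set_option autoImplicit false

/-!
# Euler characteristics of sums and differences of classes
-/

namespace Pool.Agent.Q299.LG

open Pool.Agent.TH167.SH

variable {n : ℕ}

/-- twice the Euler characteristic of the class `e H - ∑ u i E i`, with arbitrary integers -/
def c2 (e : ℤ) (u : Fin n → ℤ) : ℤ := e ^ 2 + 3 * e + 2 - ∑ i, (u i ^ 2 + u i)

/-- the sum of the multiplicities -/
def s1 (u : Fin n → ℤ) : ℤ := ∑ i, u i

/-- the scalar product of the multiplicities -/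
def sp (u v : Fin n → ℤ) : ℤ := ∑ i, u i * v i

theorem c2_eq (e : ℤ) (u : Fin n → ℤ) : c2 e u = e ^ 2 + 3 * e + 2 - sp u u - s1 u := by
  unfold c2 sp s1
  rw [Finset.sum_add_distrib, Finset.sum_congr rfl fun i _ => pow_two (u i)]
  ring

theorem sp_comm (u v : Fin n → ℤ) : sp u v = sp v u := by
  unfold sp
  exact Finset.sum_congr rfl fun i _ => mul_comm _ _

theorem sp_add (u v w : Fin n → ℤ) : sp (fun i => u i + v i) w = sp u w + sp v w := by
  unfold sp
  rw [← Finset.sum_add_distrib]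
  exact Finset.sum_congr rfl fun i _ => by ring

theorem sp_sub (u v w : Fin n → ℤ) : sp (fun i => u i - v i) w = sp u w - sp v w := by
  unfold sp
  rw [← Finset.sum_sub_distrib]
  exact Finset.sum_congr rfl fun i _ => by ring

theorem sp_smul (k : ℤ) (u w : Fin n → ℤ) : sp (fun i => k * u i) w = k * sp u w := by
  unfold sp
  rw [Finset.mul_sum]
  exact Finset.sum_congr rfl fun i _ => by ring

theorem s1_add (u v : Fin n → ℤ) : s1 (fun i => u i + v i) = s1 u + s1 v := by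
  unfold s1
  rw [← Finset.sum_add_distrib]

theorem s1_sub (u v : Fin n → ℤ) : s1 (fun i => u i - v i) = s1 u - s1 v := by
  unfold s1
  rw [← Finset.sum_sub_distrib]

theorem s1_smul (k : ℤ) (u : Fin n → ℤ) : s1 (fun i => k * u i) = k * s1 u := by
  unfold s1
  rw [Finset.mul_sum]

/-- sums of classes -/
theorem c2_add (e f : ℤ) (u v : Fin n → ℤ) :
    c2 (e + f) (fun i => u i + v i) = c2 e u + c2 f v - 2 + 2 * (e * f - sp u v) := by
  rw [c2_eq, c2_eq, c2_eq, sp_add, s1_add, sp_comm u, sp_comm v, sp_add, sp_add, sp_comm v u]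
  ring

/-- differences of classes -/
theorem c2_sub (e f : ℤ) (u v : Fin n → ℤ) :
    c2 (e - f) (fun i => u i - v i) =
      c2 e u + (f ^ 2 - sp v v) + (s1 v - 3 * f) - 2 * (e * f - sp u v) := by
  rw [c2_eq, c2_eq, sp_sub, s1_sub, sp_comm u, sp_comm v, sp_sub, sp_sub, sp_comm v u]
  ring

/-- differences with multiples of a class -/
theorem c2_sub_mul (k e f : ℤ) (u v : Fin n → ℤ) :
    c2 (e - k * f) (fun i => u i - k * v i) =
      c2 e u + k ^ 2 * (f ^ 2 - sp v v) + k * (s1 v - 3 * f) - 2 * k * (e * f - sp u v) := by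
  rw [c2_sub, sp_smul, sp_comm v (fun i => k * v i), sp_smul, sp_comm u, sp_smul, s1_smul,
    sp_comm v u]
  ring

theorem two_chi' (e : ℕ) (u : Fin n → ℕ) : 2 * chi e u = c2 (e : ℤ) fun i => (u i : ℤ) := by
  rw [two_chi, c2_eq]
  unfold ip kk sp s1
  ring

/-- truncation increases the Euler characteristic -/
theorem c2_le (e : ℕ) (u : Fin n → ℤ) :
    c2 (e : ℤ) u ≤ 2 * chi e fun i => (u i).toNat := by
  rw [two_chi']
  unfold c2
  have h : ∑ i, (((u i).toNat : ℤ) ^ 2 + ((u i).toNat : ℤ)) ≤ ∑ i, (u i ^ 2 + u i) := by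
    refine Finset.sum_le_sum fun i _ => ?_
    rcases le_or_gt 0 (u i) with h | h
    · rw [Int.toNat_of_nonneg h]
    · have h1 : (u i).toNat = 0 := Int.toNat_of_nonpos h.le
      rw [h1]
      push_cast
      nlinarith
  linarith

theorem nonneg_sum (u : Fin n → ℤ) : 0 ≤ ∑ i, (u i ^ 2 + u i) := by
  refine Finset.sum_nonneg fun i _ => ?_
  rcases le_or_gt 0 (u i) with h | h
  · positivity
  · nlinarith

/-- the degree of a class of positive Euler characteristic and small degree -/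
theorem c2_neg {e : ℤ} {u : Fin n → ℤ} (h1 : -2 ≤ e) (h2 : 0 < c2 e u) : 0 ≤ e := by
  by_contra hcon
  have h3 := nonneg_sum u
  unfold c2 at h2
  have h4 : e = -1 ∨ e = -2 := by omega
  rcases h4 with rfl | rfl
  · linarith
  · linarith

theorem sp_le {μ : ℤ} {u : Fin n → ℕ} (h : ∀ i, (u i : ℤ) ≤ μ) :
    sp (fun i => (u i : ℤ)) (fun i => (u i : ℤ)) ≤ μ * s1 fun i => (u i : ℤ) := by
  unfold sp s1
  rw [Finset.mul_sum]
  exact Finset.sum_le_sum fun i _ => mul_le_mul_of_nonneg_right (h i) (Nat.cast_nonneg _)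

theorem s1_nonneg (u : Fin n → ℕ) : 0 ≤ s1 fun i => (u i : ℤ) :=
  Finset.sum_nonneg fun i _ => Nat.cast_nonneg _

/-- the degree is small against the sum of the multiplicities -/
theorem deg_small {μ : ℤ} {a : ℕ} {v : Fin n → ℕ} (hμ : 0 ≤ μ) (hv : ∀ i, (v i : ℤ) ≤ μ)
    (hs : 25000 * (μ + 1) ^ 2 ≤ s1 fun i => (v i : ℤ)) (h1 : c2 (a : ℤ) (fun i => (v i : ℤ)) = 2) :
    150 * (a : ℤ) ≤ s1 fun i => (v i : ℤ) := by
  rw [c2_eq] at h1
  have h2 := sp_le hv
  obtain ⟨s, hs'⟩ : ∃ s, s = s1 fun i => (v i : ℤ) := ⟨_, rfl⟩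
  rw [← hs'] at h1 h2 hs ⊢
  have ha : (0 : ℤ) ≤ a := Nat.cast_nonneg _
  by_contra hcon
  push Not at hcon
  have h3 : (a : ℤ) ^ 2 ≤ (μ + 1) * s := by nlinarith
  have h4 : s ^ 2 < (150 * (a : ℤ)) ^ 2 := by
    have : 0 ≤ s := le_trans (by positivity) hs
    nlinarith
  have h5 : 22500 * ((μ + 1) * s) ≤ s * s := by
    have h6 : 22500 * (μ + 1) ≤ s := by nlinarith
    have : 0 ≤ s := le_trans (by positivity) hs
    nlinarith
  nlinarith

end Pool.Agent.Q299.LG
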