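import Pool.Agent.Q299.LG.Key
import Pool.Agent.Q299.IR.Ext

set_option autoImplicit false

/-!
# The members of a large class through further generic points
-/

namespace Pool.Agent.Q299.LG

open MvPolynomial Pool.Agent.W609 Pool.Agent.W609.CR Pool.Agent.TH167 Pool.Agent.TH167.SH

variable {K : Type} [Field K] {n k : ℕ} {P : Fin n → Fin 2 → K} {Q : Fin k → Fin 2 → K}

theorem mem_append {w : Fin n → ℕ} {d : ℕ} {F : MvPolynomial (Fin 3) K} :
    F ∈ VS (fun i => aff (Fin.append P Q i)) (Fin.append w fun _ : Fin k => 1) d ↔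
      F ∈ VS (fun i => aff (P i)) w d ∧ ∀ j, eval (aff (Q j)) F = 0 := by
  rw [mem_VS, mem_VS]
  constructor
  · rintro ⟨h1, h2⟩
    refine ⟨⟨h1, fun i => ?_⟩, fun j => ?_⟩
    · have h := h2 (Fin.castAdd k i)
      rwa [Fin.append_left, Fin.append_left] at h
    · have h := h2 (Fin.natAdd n j)
      rwa [Fin.append_right, Fin.append_right, van_one] at h
  · rintro ⟨⟨h1, h2⟩, h3⟩
    refine ⟨h1, fun i => ?_⟩
    refine Fin.addCases (fun i => ?_) (fun j => ?_) i
    · rw [Fin.append_left, Fin.append_left]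
      exact h2 i
    · rw [Fin.append_right, Fin.append_right, van_one]
      exact h3 j

theorem chi_append (w : Fin n → ℕ) (d : ℕ) :
    chi d (Fin.append w fun _ : Fin k => 1) = chi d w - k := by
  unfold chi
  rw [Fin.sum_univ_add]
  have h1 : ∀ i : Fin n, ((Fin.append w (fun _ : Fin k => 1) (Fin.castAdd k i) + 1).choose 2 : ℤ) =
      ((w i + 1).choose 2 : ℤ) := fun i => by rw [Fin.append_left]
  have h2 : ∀ j : Fin k, ((Fin.append w (fun _ : Fin k => 1) (Fin.natAdd n j) + 1).choose 2 : ℤ) =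
      1 := fun j => by rw [Fin.append_right]; norm_num
  rw [Finset.sum_congr rfl fun i _ => h1 i, Finset.sum_congr rfl fun j _ => h2 j,
    Finset.sum_const, Finset.card_univ, Fintype.card_fin]
  ring

theorem sum_append (w : Fin n → ℕ) :
    ∑ i, Fin.append w (fun _ : Fin k => 1) i = ∑ i, w i + k := by
  rw [Fin.sum_univ_add]
  have h1 : ∀ i : Fin n, Fin.append w (fun _ : Fin k => 1) (Fin.castAdd k i) = w i :=
    fun i => by rw [Fin.append_left]
  have h2 : ∀ j : Fin k, Fin.append w (fun _ : Fin k => 1) (Fin.natAdd n j) = 1 :=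
    fun j => by rw [Fin.append_right]
  rw [Finset.sum_congr rfl fun i _ => h1 i, Finset.sum_congr rfl fun j _ => h2 j,
    Finset.sum_const, Finset.card_univ, Fintype.card_fin, smul_eq_mul, mul_one]

theorem le_append {w : Fin n → ℕ} {μ : ℕ} (hμ : 1 ≤ μ) (hw : ∀ i, w i ≤ μ) (i : Fin (n + k)) :
    Fin.append w (fun _ : Fin k => 1) i ≤ μ := by
  refine Fin.addCases (fun i => ?_) (fun j => ?_) i
  · rw [Fin.append_left]
    exact hw i
  · rw [Fin.append_right]
    exact hμ

/-- the only member through `k` further generic points is irreducible -/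
theorem through [CharZero K] {μ d : ℕ} {w : Fin n → ℕ} (hμ : 1 ≤ μ) (hw : ∀ i, w i ≤ μ)
    (hsum : 100000 * (μ + 1) ^ 2 ≤ ∑ i, w i + k) (hχ : chi d w = k + 1)
    (hPQ : AlgebraicIndependent ℚ (fun ij : Fin (n + k) × Fin 2 => Fin.append P Q ij.1 ij.2)) :
    ∃ F, Irreducible F ∧ F.IsHomogeneous d ∧ (∀ i, Ord (aff (P i)) (w i) F) ∧
      ∀ F', (F' ∈ VS (fun i => aff (P i)) w d ∧ ∀ j, eval (aff (Q j)) F' = 0) ↔
        ∃ c : K, F' = c • F := by
  classical
  have hb : Bg μ (Fin.append w fun _ : Fin k => 1) := by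
    refine ⟨le_append hμ hw, ?_⟩
    rw [sum_append]
    omega
  have hχ1 : chi d (Fin.append w fun _ : Fin k => 1) = 1 := by
    rw [chi_append, hχ]
    ring
  have hdim := hb.dim hPQ d
  rw [hχ1] at hdim
  have h1 : Module.finrank K ↥(VS (fun i => aff (Fin.append P Q i))
      (Fin.append w fun _ : Fin k => 1) d) = 1 := by
    norm_num at hdim
    exact hdim
  obtain ⟨F, hF0, hF⟩ := exists_ne (P := Fin.append P Q) (w := Fin.append w fun _ : Fin k => 1)
    (d := d) (by rw [h1]; norm_num)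
  obtain ⟨hirr, hord⟩ := irr_one hPQ (le_append hμ hw) (by rw [sum_append]; exact hsum) hχ1 hF hF0
  have hFm := mem_append.1 hF
  refine ⟨F, hirr, ((mem_VS _ _ _ _).1 hFm.1).1, fun i => ?_, fun F' => ⟨fun h => ?_, ?_⟩⟩
  · have h := hord (Fin.castAdd k i)
    rwa [Fin.append_left, Fin.append_left] at h
  · exact uniq_of_one h1 hF hF0 F' (mem_append.2 h)
  · rintro ⟨c, rfl⟩
    exact mem_append.1 (Submodule.smul_mem _ c hF)

end Pool.Agent.Q299.LG
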